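import Mathlib
import Pool.Agent.Lib.H74G.M

set_option autoImplicit false

/-!
MP_5e504b_an (own statement): let `f` be entire and let `D` be a component of its Fatou set such that
the set `L(D)` of constant limit functions is infinite and bounded. Then `L(D)` contains a point `a`
of the Julia set which is recurrent, not parabolic, and for which the numbers `|(fⁿ)'(a)|`, `n ≥ 0`,
are bounded; if `L(D)` is countable, `a` is moreover periodic and its multiplier has modulus one, so
that `a` is a Cremer point.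
-/

open Set Filter Topology Metric

namespace Pool.Agent.Results.MP_5e504b_an.RecurrentPoint

/-- The maps `F k` converge to the constant `c ∈ ℂ ∪ {∞}` locally uniformly on `D` (in the sphere
`ℂ ∪ {∞}`): for every neighbourhood `V` of `c`, every `z ∈ D` has a neighbourhood `t` in `D` such
that for all large `k` the map `F k` sends `t` into `V`. -/
def TendsConst (F : ℕ → ℂ → ℂ) (c : OnePoint ℂ) (D : Set ℂ) : Prop :=
  ∀ V ∈ 𝓝 c, ∀ z ∈ D, ∃ t ∈ 𝓝[D] z, ∀ᶠ k in atTop, ∀ y ∈ t, ((F k y : ℂ) : OnePoint ℂ) ∈ V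

/-- The iterates of `f` form a normal family on `U` in the sense of Montel: every subsequence has a
subsequence which converges locally uniformly on `U` to a holomorphic function or to the constant
`∞`. -/
def NormalOn (f : ℂ → ℂ) (U : Set ℂ) : Prop :=
  ∀ n : ℕ → ℕ, StrictMono n → ∃ φ : ℕ → ℕ, StrictMono φ ∧
    ((∃ g : ℂ → ℂ, DifferentiableOn ℂ g U ∧
        TendstoLocallyUniformlyOn (fun k => f^[n (φ k)]) g atTop U) ∨
      TendsConst (fun k => f^[n (φ k)]) OnePoint.infty U)

/-- The Fatou set of `f`: the points with an open neighbourhood on which the iterates form a normal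
family. -/
def fatouSet (f : ℂ → ℂ) : Set ℂ := {z | ∃ U : Set ℂ, IsOpen U ∧ z ∈ U ∧ NormalOn f U}

/-- `D` is a connected component of the Fatou set of `f`. -/
def IsFatouComponent (f : ℂ → ℂ) (D : Set ℂ) : Prop :=
  ∃ z ∈ fatouSet f, D = connectedComponentIn (fatouSet f) z

/-- The set `L(D)` of the `c ∈ ℂ ∪ {∞}` such that some subsequence of the iterates of `f` converges
to the constant `c` locally uniformly on `D`. -/
def limitConstants (f : ℂ → ℂ) (D : Set ℂ) : Set (OnePoint ℂ) :=
  {c | ∃ n : ℕ → ℕ, StrictMono n ∧ TendsConst (fun k => f^[n k]) c D}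

/-- `L` is bounded: it is contained in some disc `{|w| ≤ R}` of `ℂ` (so `∞ ∉ L`). -/
def IsBoundedSet (L : Set (OnePoint ℂ)) : Prop :=
  ∃ R : ℝ, L ⊆ (fun z : ℂ => (z : OnePoint ℂ)) '' closedBall 0 R

/-- `a` is recurrent: `a` is a limit point of the sequence `a, f a, f (f a), …`. -/
def IsRecurrent (f : ℂ → ℂ) (a : ℂ) : Prop := MapClusterPt a atTop (fun n : ℕ => f^[n] a)

/-- `a` is a parabolic point: `f^p(a) = a` and `(f^p)'(a) = 1` for some `p ≥ 1` (equivalently, `a`
is periodic and its multiplier is a root of unity). -/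
def IsParabolic (f : ℂ → ℂ) (a : ℂ) : Prop := ∃ p : ℕ, 1 ≤ p ∧ f^[p] a = a ∧ deriv f^[p] a = 1

/-- If `f` is entire and `D` is a Fatou component for which `L(D)` is infinite and bounded, then
`L(D)` contains a recurrent point `a` of the Julia set which is not parabolic and for which
`|(fⁿ)'(a)|`, `n ≥ 0`, is bounded, and if `L(D)` is countable then `a` is periodic with multiplier of
modulus one. -/
theorem result : ∀ f : ℂ → ℂ, Differentiable ℂ f → ∀ D : Set ℂ, IsFatouComponent f D →
    (limitConstants f D).Infinite → IsBoundedSet (limitConstants f D) →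
    ∃ a : ℂ, (a : OnePoint ℂ) ∈ limitConstants f D ∧ a ∉ fatouSet f ∧ IsRecurrent f a ∧
      ¬ IsParabolic f a ∧ (∃ C : ℝ, ∀ n : ℕ, ‖deriv f^[n] a‖ ≤ C) ∧
      ((limitConstants f D).Countable → ∃ p : ℕ, 1 ≤ p ∧ f^[p] a = a ∧ ‖deriv f^[p] a‖ = 1) := by
  intro f hf D hD hinf hbd
  obtain ⟨R, hR⟩ := hbd
  exact H74G.final hf hD hinf hR

end Pool.Agent.Results.MP_5e504b_an.RecurrentPoint
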